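import Mathlib

set_option autoImplicit false

open Filter Topology MeasureTheory Real

namespace Pool.Agent.Results.MP_c070b6_an.TwoBumps

/-- The Laplacian `u_xx + u_yy`. -/
noncomputable def lap (u : ℝ × ℝ → ℝ) (p : ℝ × ℝ) : ℝ :=
  iteratedDeriv 2 (fun t => u (t, p.2)) p.1 + iteratedDeriv 2 (fun t => u (p.1, t)) p.2

theorem d2 (c k l a b x : ℝ) (hk : 0 < k) (hl : 0 < l) :
    iteratedDeriv 2 (fun t => c - log (k + (t - a) ^ 2) - log (l + (t - b) ^ 2)) x =
      -((2 * k - 2 * (x - a) ^ 2) / (k + (x - a) ^ 2) ^ 2) -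
        (2 * l - 2 * (x - b) ^ 2) / (l + (x - b) ^ 2) ^ 2 := by
  have h : ∀ k a : ℝ, 0 < k → ∀ t, HasDerivAt (fun t => log (k + (t - a) ^ 2))
      (2 * (t - a) / (k + (t - a) ^ 2)) t ∧ HasDerivAt (fun t => 2 * (t - a) / (k + (t - a) ^ 2))
      ((2 * k - 2 * (t - a) ^ 2) / (k + (t - a) ^ 2) ^ 2) t := fun k a hk t => by
    have h1 := (((hasDerivAt_id' t).sub_const a).fun_pow 2).const_add k
    have h2 : k + (t - a) ^ 2 ≠ 0 := by positivity
    refine ⟨by simpa using h1.log h2, ?_⟩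
    convert! (((hasDerivAt_id' t).sub_const a).const_mul 2).fun_div h1 h2 using 1
    simp; ring
  rw [iteratedDeriv_succ, iteratedDeriv_one, funext fun t =>
    (((h k a hk t).1.const_sub c).fun_sub (h l b hl t).1).deriv]
  exact ((h k a hk x).2.fun_neg.fun_sub (h l b hl x).2).deriv

/-- The example. -/
noncomputable def v (p : ℝ × ℝ) : ℝ :=
  log 20002 - log (1 + p.2 ^ 2 + (p.1 - 100) ^ 2) - log (1 + p.2 ^ 2 + (p.1 - -100) ^ 2)

theorem ev (p : ℝ × ℝ) : exp (v p) =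
    20002 / (1 + p.2 ^ 2 + (p.1 - 100) ^ 2) / (1 + p.2 ^ 2 + (p.1 - -100) ^ 2) := by
  rw [v, exp_sub, exp_sub, exp_log (by norm_num), exp_log (by positivity), exp_log (by positivity)]

theorem ev2 (p : ℝ × ℝ) : exp (2 * v p) =
    (20002 / (1 + p.2 ^ 2 + (p.1 - 100) ^ 2) / (1 + p.2 ^ 2 + (p.1 - -100) ^ 2)) ^ 2 := by
  rw [← ev, two_mul, exp_add, sq]

theorem result : ∃ u : ℝ × ℝ → ℝ, ContDiff ℝ 2 u ∧ (∀ p, lap u p + exp (2 * u p) ≤ 0) ∧
    Integrable (fun p => exp (2 * u p)) ∧ Integrable (fun y => exp (u (0, y))) ∧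
    (∫ y, exp (u (0, y))) ^ 2 <
      (∫ p in {p : ℝ × ℝ | 0 < p.1}, exp (2 * u p)) *
        ∫ p in {p : ℝ × ℝ | 0 < p.1}ᶜ, exp (2 * u p) := by
  have hv : ContDiff ℝ 2 v := by unfold v; fun_prop (disch := intros; positivity)
  have hI : Integrable fun p => exp (2 * v p) := by
    refine (((integrable_inv_one_add_sq.comp_sub_right 100).mul_prod
      integrable_inv_one_add_sq).const_mul (20002 ^ 2)).mono' (by
        have := hv.continuous; fun_prop) (.of_forall fun p => ?_)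
    rw [Real.norm_of_nonneg (exp_pos _).le, ev2, div_div, div_pow, ← mul_inv, div_eq_mul_inv]
    have h1 : (1 + (p.1 - 100) ^ 2) * (1 + p.2 ^ 2) ≤
        (1 + p.2 ^ 2 + (p.1 - 100) ^ 2) * (1 + p.2 ^ 2 + (p.1 - -100) ^ 2) := by
      refine mul_le_mul ?_ ?_ (by positivity) (by positivity) <;>
        linarith [sq_nonneg p.2, sq_nonneg (p.1 - -100)]
    have h2 : 1 ≤ (1 + (p.1 - 100) ^ 2) * (1 + p.2 ^ 2) :=
      one_le_mul_of_one_le_of_one_le (by nlinarith) (by nlinarith)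
    gcongr
    nlinarith
  have hb : ∀ y, exp (v (0, y)) ≤ 2 / 10000 * (1 + (y / 100) ^ 2)⁻¹ := fun y => by
    rw [ev, div_div, ← div_eq_mul_inv, div_le_div_iff₀ (by positivity) (by positivity)]
    nlinarith [sq_nonneg y, sq_nonneg (y ^ 2)]
  have hJ := (integrable_inv_one_add_sq.comp_div (by norm_num : (100 : ℝ) ≠ 0)).const_mul (2 / 10000)
  have hK : Integrable fun y => exp (v (0, y)) := hJ.mono' (by have := hv.continuous; fun_prop)
    (.of_forall fun y => by rw [Real.norm_of_nonneg (exp_pos _).le]; exact hb y)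
  have hA : ∀ (a : ℝ) (S : Set (ℝ × ℝ)), a ^ 2 = 100 ^ 2 →
      Set.Icc (a - 1) (a + 1) ×ˢ Set.Icc (-1) 1 ⊆ S → 1 / 10 ≤ ∫ p in S, exp (2 * v p) := by
    intro a S ha hS
    refine le_trans ?_ (setIntegral_mono_set hI.integrableOn (.of_forall fun _ => (exp_pos _).le)
      hS.eventuallyLE)
    refine le_trans ?_ (setIntegral_ge_of_const_le_real (c := (33 / 200) ^ 2)
      (measurableSet_Icc.prod measurableSet_Icc) (isCompact_Icc.prod isCompact_Icc).measure_ne_top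
      (fun p hp => ?_) hI.integrableOn)
    · rw [Measure.real, Measure.volume_eq_prod, Measure.prod_prod]; norm_num
    · obtain ⟨⟨h1, h2⟩, h3, h4⟩ := hp
      rw [ev2, div_div]
      refine pow_le_pow_left₀ (by norm_num) ?_ 2
      rw [le_div_iff₀ (by positivity)]
      have a1 : p.2 ^ 2 ≤ 1 := by nlinarith
      rcases sq_eq_sq_iff_eq_or_eq_neg.1 ha with rfl | rfl
      · have : (1 + p.2 ^ 2 + (p.1 - 100) ^ 2) * (1 + p.2 ^ 2 + (p.1 - -100) ^ 2) ≤ 3 * 40403 := by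
          refine mul_le_mul ?_ ?_ (by positivity) (by positivity) <;> nlinarith
        linarith
      · have : (1 + p.2 ^ 2 + (p.1 - 100) ^ 2) * (1 + p.2 ^ 2 + (p.1 - -100) ^ 2) ≤ 40403 * 3 := by
          refine mul_le_mul ?_ ?_ (by positivity) (by positivity) <;> nlinarith
        linarith
  refine ⟨v, hv, fun p => ?_, hI, hK, ?_⟩
  · have e : (fun t => v (p.1, t)) = fun t => log 20002 - log (1 + (p.1 - 100) ^ 2 + (t - 0) ^ 2) -
        log (1 + (p.1 - -100) ^ 2 + (t - 0) ^ 2) := by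
      ext t; simp only [v, sub_zero, add_right_comm]
    rw [lap, e, ev2, d2 _ _ _ _ _ _ (by positivity) (by positivity)]
    simp only [v]
    rw [d2 _ _ _ _ _ _ (by positivity) (by positivity), sub_zero,
      add_right_comm 1 ((p.1 - 100) ^ 2), add_right_comm 1 ((p.1 - -100) ^ 2)]
    have h1 : 20002 ≤ (1 + p.2 ^ 2 + (p.1 - 100) ^ 2) + (1 + p.2 ^ 2 + (p.1 - -100) ^ 2) := by
      nlinarith [sq_nonneg p.1, sq_nonneg p.2]
    have h2 : 0 < 1 + p.2 ^ 2 + (p.1 - 100) ^ 2 := by positivity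
    have h3 : 0 < 1 + p.2 ^ 2 + (p.1 - -100) ^ 2 := by positivity
    generalize 1 + p.2 ^ 2 + (p.1 - 100) ^ 2 = P at *
    generalize 1 + p.2 ^ 2 + (p.1 - -100) ^ 2 = Q at *
    have h4 : (20002 / P / Q) ^ 2 ≤ 4 / P ^ 2 + 4 / Q ^ 2 := by
      field_simp; nlinarith [sq_nonneg (P - Q)]
    refine (add_le_add_right h4 _).trans_eq ?_
    ring
  · have h1 := integral_mono hK hJ hb
    rw [integral_const_mul, Measure.integral_comp_div (fun x : ℝ => (1 + x ^ 2)⁻¹),
      integral_univ_inv_one_add_sq] at h1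
    have h2 := pow_le_pow_left₀ (integral_nonneg fun _ => (exp_pos _).le) h1 2
    have h3 := mul_le_mul (hA 100 {p | 0 < p.1} rfl fun p hp => by
      have := hp.1.1; simp; linarith) (hA (-100) {p | 0 < p.1}ᶜ (by norm_num) fun p hp => by
      have := hp.1.2; simp; linarith) (by norm_num) (integral_nonneg fun _ => (exp_pos _).le)
    refine (h2.trans_lt ?_).trans_le h3
    norm_num
    nlinarith [pi_lt_four, pi_pos]

end Pool.Agent.Results.MP_c070b6_an.TwoBumps
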